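import Pool.Agent.H23.BnProof

open Pool.Agent.H23.Broad Pool.Agent.H23.Bn

theorem Pool.Agent.Results.MP_4edf50_co.Unbounded.result (C : ℕ) :
    ∃ (V : Type) (_ : Fintype V) (T : SimpleGraph V), T.IsTree ∧ 2 ≤ Fintype.card V ∧
      alphaBn T + C < upperB T := by
  refine ⟨W (C + 3), inferInstance, T (C + 3), tree _, by simp, ?_⟩
  have h1 := upper_ge (C + 3) (by omega)
  have h2 := alpha_le (C + 3) (by omega)
  omega
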